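import Pool.Agent.Q274.BKL.Stm2

/-!
# The central values of all even weights as combinations of values of elliptic expressions
-/

set_option autoImplicit false
set_option linter.unusedVariables false
set_option linter.unusedSectionVars false

open Filter
open scoped Topology PeriodPair

namespace Pool.Agent.Q203.BKL

open H667R3 Pool.Agent.TH936.CM
open Pool.Agent.TH936.PU (sys_pid sum_rep bij_mul bij_crt div_mem_iff)
open Pool.Agent.W192.HK (sp nm HC)
open Pool.Agent.TH936.CW (ek Dk ck cenK Dk_zero ek_per)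
open Pool.Agent.Y698 (RR aR bR fR al bl LD e7 nR nI Inq qch psi psi_HC psi_sp e7_neg e7_one
  maximal_sp irr_fR e7_mul e7_eq_zero e7_per e7_sq e7_conj nI_sp' qch_conj qprod_sq cop_cast
  fR_ne fin_quot not_mem_of_cop nR_fR nR_mul qch_mul nR_cong)
open Pool.Agent.Y698.SG (Spl Gp quad_HC' inp)
open Pool.Agent.Q274.BKL

theorem psi_pow_HC (e : ℕ) : HC (2 * e + 1) (sp fR) (fun I => psi I ^ (2 * e + 1)) := by
  have h := psi_HC
  refine ⟨h.ne, fun I J => ?_, fun I => ?_, fun α h0 h1 => ?_, fun q' hq' => ?_⟩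
  · show psi (I * J) ^ (2 * e + 1) = psi I ^ (2 * e + 1) * psi J ^ (2 * e + 1)
    rw [h.mul, mul_pow]
  · show psi I ^ (2 * e + 1) = 0 ↔ _
    rw [pow_eq_zero_iff (Nat.succ_ne_zero _), h.zero]
  · show psi (sp α) ^ (2 * e + 1) = _
    rw [h.princ α h0 h1, pow_one]
  · have htop : q' = ⊤ := (maximal_sp irr_fR).out.2 _ hq'
    refine ⟨-1, by norm_num, by rw [htop]; trivial, ?_, ?_⟩
    · rw [Ideal.isCoprime_span_singleton_iff]
      exact ⟨-1, 0, by ring⟩
    · show psi (sp (-1 : RR)) ^ (2 * e + 1) ≠ (((-1 : RR) : RR) : ℂ) ^ (2 * e + 1)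
      rw [psi_sp, e7_neg, e7_one]
      push_cast
      have h2 : (-1 : ℂ) * -1 = 1 := by norm_num
      rw [h2, one_pow, Odd.neg_one_pow ⟨e, rfl⟩]
      norm_num

theorem theta_HC (e : ℕ) (S : Finset ℕ) (hS : ∀ q ∈ S, Gp q) :
    HC (2 * e + 1) (sp (fR * ((∏ q ∈ S, q : ℕ) : RR)))
      (fun I => psi I ^ (2 * e + 1) * ∏ q ∈ S, qch q (nI I)) := by
  classical
  have hbasic := Pool.Agent.W287.HK.h_basic
  have hcls := Pool.Agent.W571.HK.h_cls hbasic
  have hfp := Pool.Agent.W53.HK.h_fp hbasic hcls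
  have hprod := Pool.Agent.W29.HK.h_prod hbasic hfp
  induction S using Finset.induction_on with
  | empty => simpa using psi_pow_HC e
  | insert q S hq ih =>
    have ih' := ih fun p hp => hS p (Finset.mem_insert_of_mem hp)
    have h1 := hS q (Finset.mem_insert_self _ _)
    have hcop : IsCoprime (fR * ((∏ q ∈ S, q : ℕ) : RR)) (q : RR) := by
      refine IsCoprime.mul_left h1.gn.cop (cop_cast ?_)
      refine Nat.Coprime.prod_left fun p hp => ?_
      exact (Nat.coprime_primes (hS p (Finset.mem_insert_of_mem hp)).pr h1.pr).2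
        fun h => hq (h ▸ hp)
    have h3 := hprod RR al Pool.Agent.Y698.qr _ _ _ _ _ ih' (quad_HC' inp.hcs h1)
      ((Ideal.isCoprime_span_singleton_iff _ _).2 hcop)
    rw [Ideal.span_singleton_mul_span_singleton] at h3
    have e1 : fR * ((∏ p ∈ S, p : ℕ) : RR) * (q : RR) =
        fR * ((∏ p ∈ insert q S, p : ℕ) : RR) := by
      rw [Finset.prod_insert hq]
      push_cast
      ring
    rw [e1] at h3
    convert h3 using 1
    funext I
    rw [Finset.prod_insert hq]
    ring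

lemma uniq {F G : ℂ → ℂ} (hF : Differentiable ℂ F) (hG : Differentiable ℂ G) {c : ℝ}
    {f : ℂ → Ideal RR → ℂ}
    (h1 : ∀ z : ℂ, c < z.re → HasSum (f z) (F z)) (h2 : ∀ z : ℂ, c < z.re → HasSum (f z) (G z)) :
    F = G := by
  refine AnalyticOnNhd.eq_of_eventuallyEq (𝕜 := ℂ) (z₀ := ((c + 1 : ℝ) : ℂ)) ?_ ?_ ?_
  · exact fun z _ => hF.analyticAt z
  · exact fun z _ => hG.analyticAt z
  · have h3 : IsOpen {z : ℂ | c < z.re} := isOpen_lt continuous_const Complex.continuous_re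
    filter_upwards [h3.mem_nhds (show c < ((c + 1 : ℝ) : ℂ).re by simp)] with z hz
    exact (h1 z hz).unique (h2 z hz)

section

variable {L : PeriodPair} {Ω p q : ℂ}

lemma card_k {k : ℕ} [Fintype (RR ⧸ sp (k : RR))] :
    (Fintype.card (RR ⧸ sp (k : RR)) : ℂ) = k ^ 2 := by
  obtain ⟨-, -, -, -, b5, -, -, -, -⟩ := Pool.Agent.W287.HK.h_basic RR al Pool.Agent.Y698.qr
  have h6 := b5 (k : RR)
  unfold nm at h6
  rw [Nat.card_eq_fintype_card] at h6
  have h7 : (((k : RR) : ℂ)) = (k : ℂ) := by push_cast; rfl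
  rw [h7, Complex.normSq_natCast] at h6
  have h8 : ((Fintype.card (RR ⧸ sp (k : RR)) : ℝ) : ℂ) = ((k : ℝ) * (k : ℝ) : ℝ) := by
    rw [h6]
  push_cast at h8
  rw [h8]
  ring

lemma inner_sum (hpar : S_PAR) (hdist : S_DIST) (hL : IsLat L RR Ω)
    (hpq : ∀ l ∈ L.lattice, eta L l = p * l + q * (starRingEnd ℂ) l) (e : ℕ) {k : ℕ} (hk : 0 < k)
    [Fintype (RR ⧸ sp (k : RR))] {z : ℂ} (hz : z ∉ L.lattice)
    (hkz : (k : ℂ) * z - z ∈ L.lattice) :
    ∑ y : RR ⧸ sp (k : RR), Dk L p q e z (Ω * y.out / k) =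
      2 * ((k : ℂ) - k ^ 2) * ek L p q e z := by
  have hkc : (((k : RR)) : ℂ) = (k : ℂ) := by push_cast; rfl
  have hk0 : (k : ℂ) ≠ 0 := by exact_mod_cast hk.ne'
  have hkR : (k : RR) ≠ 0 := by
    intro h
    exact hk0 (by rw [← hkc, h]; rfl)
  have hkz' : (k : ℂ) * z ∉ L.lattice := fun h => hz (by
    have := sub_mem h hkz
    rwa [sub_sub_cancel] at this)
  have hkn' : (k : ℂ) * -z ∉ L.lattice := fun h => hkz' (by
    have := neg_mem h
    rwa [mul_neg, neg_neg] at this)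
  have hzn : -z ∉ L.lattice := fun h => hz (by
    have := neg_mem h
    rwa [neg_neg] at this)
  have hc : (k : ℂ) ^ (e + 1) * ((starRingEnd ℂ) (k : ℂ) ^ e)⁻¹ = k := by
    rw [Complex.conj_natCast, pow_succ, mul_comm ((k : ℂ) ^ e), mul_assoc,
      mul_inv_cancel₀ (pow_ne_zero _ hk0), mul_one]
  have d1 := hdist hpar L Ω p q hL hpq e (k : RR) hkR z (by rwa [hkc])
  have d2 := hdist hpar L Ω p q hL hpq e (k : RR) hkR (-z) (by rwa [hkc])
  rw [hkc, hc] at d1 d2
  have hkz2 : (k : ℂ) * -z - -z ∈ L.lattice := by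
    have := neg_mem hkz
    have e0 : (k : ℂ) * -z - -z = -((k : ℂ) * z - z) := by ring
    rwa [e0]
  rw [ek_per hpq e hz (w := (k : ℂ) * z) hkz] at d1
  rw [ek_per hpq e hzn (w := (k : ℂ) * -z) hkz2, hpar L p q e z hz] at d2
  have e2 : ∀ y : RR ⧸ sp (k : RR), ek L p q e (z - Ω * y.out / k) =
      - ek L p q e (-z + Ω * y.out / k) := by
    intro y
    rw [← hpar]
    · congr 1
      ring
    · intro h
      apply hkn'
      have h3 : (k : ℂ) * (-z + Ω * y.out / k) ∈ L.lattice := by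
        have := hL.mul (k : RR) _ h
        rwa [hkc] at this
      have h4 := hL.mem_mul y.out
      have h5 := sub_mem h3 h4
      have e5 : (k : ℂ) * (-z + Ω * y.out / k) - Ω * y.out = (k : ℂ) * -z := by
        field_simp
        ring
      rwa [e5] at h5
  unfold Dk
  rw [Finset.sum_sub_distrib, Finset.sum_add_distrib, Finset.sum_congr rfl (fun y _ => e2 y),
    Finset.sum_neg_distrib, d1, d2, Finset.sum_const, Finset.card_univ, nsmul_eq_mul, card_k]
  ring

lemma sub_of_mul {a b x : RR} (h : x ∈ sp (a * b)) : x ∈ sp a := by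
  rw [Ideal.mem_span_singleton'] at h ⊢
  obtain ⟨c, rfl⟩ := h
  exact ⟨c * b, by ring⟩

/-- the sum modulo `7 D` -/
lemma outer_sum (hpar : S_PAR) (hdist : S_DIST) (hL : IsLat L RR Ω)
    (hpq : ∀ l ∈ L.lattice, eta L l = p * l + q * (starRingEnd ℂ) l) (e : ℕ) {D n : RR}
    (hD : D ≠ 0) (hn : n = -fR * (fR * D)) [Fintype (RR ⧸ sp n)] [Fintype (RR ⧸ sp (fR * D))]
    (c : RR → ℂ) (hc : ∀ x y, x - y ∈ sp (fR * D) → c x = c y) (hc0 : ∀ x ∈ sp fR, c x = 0) :
    ∑ x : RR ⧸ sp n, c x.out * ek L p q e (Ω * x.out / n) =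
      ((-fR : RR) : ℂ) ^ (e + 1) * ((starRingEnd ℂ) ((-fR : RR) : ℂ) ^ e)⁻¹ *
      ∑ x : RR ⧸ sp (fR * D), c x.out * ek L p q e (Ω * x.out / ((fR * D : RR) : ℂ)) := by
  classical
  subst hn
  have hfD : fR * D ≠ 0 := mul_ne_zero fR_ne hD
  have hnf : -fR ≠ 0 := neg_ne_zero.2 fR_ne
  have hn0 : -fR * (fR * D) ≠ 0 := mul_ne_zero hnf hfD
  have f1 := fin_quot hnf
  let _ : Fintype (RR ⧸ sp (-fR)) := Fintype.ofFinite _
  have hc' : ∀ a : RR, a ≠ 0 → (a : ℂ) ≠ 0 := fun a ha h => ha (Subtype.ext h)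
  have k1 := hc' _ hfD
  have k2 := hc' _ hnf
  have hnot : ∀ x : RR, x ∉ sp fR → Ω * x / ((-fR * (fR * D) : RR) : ℂ) ∉ L.lattice := by
    intro x hx h
    rw [div_mem_iff hL hn0] at h
    apply hx
    rw [mul_comm] at h
    exact sub_of_mul (sub_of_mul h)
  rw [sum_rep (I := sp (-fR * (fR * D)))
    (fun p : (RR ⧸ sp (fR * D)) × (RR ⧸ sp (-fR)) => p.1.out + (fR * D) * p.2.out) (bij_mul hfD)
    (fun x => c x * ek L p q e (Ω * x / ((-fR * (fR * D) : RR) : ℂ))) ?_, Fintype.sum_prod_type,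
    Finset.mul_sum]
  · refine Finset.sum_congr rfl fun x _ => ?_
    show ∑ t : RR ⧸ sp (-fR), c (x.out + fR * D * t.out) * ek L p q e
      (Ω * ((x.out + fR * D * t.out : RR) : ℂ) / ((-fR * (fR * D) : RR) : ℂ)) = _
    have h1 : ∀ t : RR ⧸ sp (-fR), c (x.out + fR * D * t.out) * ek L p q e
        (Ω * ((x.out + fR * D * t.out : RR) : ℂ) / ((-fR * (fR * D) : RR) : ℂ)) =
        c x.out * ek L p q e (Ω * x.out / ((-fR * (fR * D) : RR) : ℂ) +
          Ω * t.out / ((-fR : RR) : ℂ)) := by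
      intro t
      rw [hc (x.out + fR * D * t.out) x.out]
      · congr 2
        have e3 : ((-fR * (fR * D) : RR) : ℂ) = ((-fR : RR) : ℂ) * ((fR * D : RR) : ℂ) := by
          push_cast; ring
        have e4 : ((x.out + fR * D * t.out : RR) : ℂ) = x.out + ((fR * D : RR) : ℂ) * t.out := by
          push_cast; ring
        rw [e3, e4]
        field_simp
      · rw [Ideal.mem_span_singleton']
        exact ⟨t.out, by ring⟩
    rw [Finset.sum_congr rfl (fun t _ => h1 t), ← Finset.mul_sum]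
    by_cases hx : x.out ∈ sp fR
    · rw [hc0 _ hx, zero_mul, zero_mul, mul_zero]
    · have e5 : ((-fR : RR) : ℂ) * (Ω * x.out / ((-fR * (fR * D) : RR) : ℂ)) =
          Ω * x.out / ((fR * D : RR) : ℂ) := by
        have e3 : ((-fR * (fR * D) : RR) : ℂ) = ((-fR : RR) : ℂ) * ((fR * D : RR) : ℂ) := by
          push_cast; ring
        rw [e3]
        field_simp
      have h2 := hdist hpar L Ω p q hL hpq e (-fR) hnf
        (Ω * x.out / ((-fR * (fR * D) : RR) : ℂ)) (by
          rw [e5, div_mem_iff hL hfD]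
          exact fun h => hx (sub_of_mul h))
      rw [h2, e5]
      ring
  · intro x y hxy
    have h1 : x - y ∈ sp (fR * D) := by
      rw [mul_comm (-fR)] at hxy
      exact sub_of_mul hxy
    show c x * _ = c y * _
    rw [hc x y h1]
    by_cases hy : y ∈ sp fR
    · rw [hc0 _ hy, zero_mul, zero_mul]
    · congr 1
      refine ek_per hpq e (hnot y hy) ?_
      have e6 : Ω * x / ((-fR * (fR * D) : RR) : ℂ) - Ω * y / ((-fR * (fR * D) : RR) : ℂ) =
          Ω * ((x - y : RR) : ℂ) / ((-fR * (fR * D) : RR) : ℂ) := by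
        push_cast; ring
      rw [e6, div_mem_iff hL hn0]
      exact hxy

/-- the Chinese remainder theorem -/
lemma crt_sum (hL : IsLat L RR Ω)
    (hpq : ∀ l ∈ L.lattice, eta L l = p * l + q * (starRingEnd ℂ) l) (e : ℕ) {D : RR}
    (hD : D ≠ 0) (hcop : IsCoprime fR D) [Fintype (RR ⧸ sp fR)] [Fintype (RR ⧸ sp D)]
    [Fintype (RR ⧸ sp (fR * D))] (φ : RR → ℂ) (hper : ∀ x y, x - y ∈ sp D → φ x = φ y)
    (hmul : ∀ x y, φ (x * y) = φ x * φ y) :
    ∑ x : RR ⧸ sp (fR * D), (e7 x.out * φ x.out) *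
      ek L p q e (Ω * x.out / ((fR * D : RR) : ℂ)) =
    e7 D * φ fR * ∑ x : RR ⧸ sp D, φ x.out * ∑ y : RR ⧸ sp fR,
      e7 y.out * ek L p q e (Ω * y.out / fR + Ω * x.out / D) := by
  classical
  have hfD : fR * D ≠ 0 := mul_ne_zero fR_ne hD
  have hc' : ∀ a : RR, a ≠ 0 → (a : ℂ) ≠ 0 := fun a ha h => ha (Subtype.ext h)
  have k1 := hc' _ hD
  have k2 := hc' _ fR_ne
  rw [sum_rep (I := sp (fR * D))
    (fun p : (RR ⧸ sp D) × (RR ⧸ sp fR) => p.1.out * fR + p.2.out * D) (bij_crt hcop)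
    (fun x => e7 x * φ x * ek L p q e (Ω * x / ((fR * D : RR) : ℂ))) ?_, Fintype.sum_prod_type,
    Finset.mul_sum]
  · refine Finset.sum_congr rfl fun x _ => ?_
    rw [Finset.mul_sum, Finset.mul_sum]
    refine Finset.sum_congr rfl fun y _ => ?_
    show e7 (x.out * fR + y.out * D) * φ (x.out * fR + y.out * D) *
      ek L p q e (Ω * ((x.out * fR + y.out * D : RR) : ℂ) / ((fR * D : RR) : ℂ)) = _
    have h1 : e7 (x.out * fR + y.out * D) = e7 y.out * e7 D := by
      rw [← e7_mul]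
      refine e7_per ?_
      rw [Ideal.mem_span_singleton']
      exact ⟨x.out, by ring⟩
    have h2 : φ (x.out * fR + y.out * D) = φ x.out * φ fR := by
      rw [← hmul]
      refine hper _ _ ?_
      rw [Ideal.mem_span_singleton']
      exact ⟨y.out, by ring⟩
    have h3 : Ω * ((x.out * fR + y.out * D : RR) : ℂ) / ((fR * D : RR) : ℂ) =
        Ω * y.out / fR + Ω * x.out / D := by
      push_cast
      field_simp
      ring
    rw [h1, h2, h3]
    ring
  · intro x y hxy
    have h1 : x - y ∈ sp fR := sub_of_mul hxy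
    have h2 : x - y ∈ sp D := by
      rw [mul_comm] at hxy
      exact sub_of_mul hxy
    show e7 x * φ x * _ = e7 y * φ y * _
    rw [e7_per h1, hper _ _ h2]
    by_cases hy : y ∈ sp fR
    · rw [e7_eq_zero.2 hy, zero_mul, zero_mul, zero_mul]
    · congr 1
      refine ek_per hpq e ?_ ?_
      · rw [div_mem_iff hL hfD]
        exact fun h => hy (sub_of_mul h)
      · have e6 : Ω * x / ((fR * D : RR) : ℂ) - Ω * y / ((fR * D : RR) : ℂ) =
            Ω * ((x - y : RR) : ℂ) / ((fR * D : RR) : ℂ) := by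
          push_cast; ring
        rw [e6, div_mem_iff hL hfD]
        exact hxy

end

lemma e7_odd (x : RR) (e : ℕ) : e7 x ^ (2 * e + 1) = e7 x := by
  by_cases hx : x ∈ sp fR
  · rw [e7_eq_zero.2 hx, zero_pow (Nat.succ_ne_zero _)]
  · rw [pow_succ, pow_mul, e7_sq hx, one_pow, one_mul]

theorem t_CEN : S_CEN := by
  classical
  intro hpar hdist Q P hQ hP e
  set S := Q ∪ P with hSdef
  have hS : ∀ q ∈ S, Gp q := by
    intro q hq
    rcases Finset.mem_union.1 hq with h | h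
    · exact Gp.of_inq (hQ q h)
    · exact Gp.of_spl (hP q h)
  have hN := Pool.Agent.Y698.SG.Gn.prod' hS
  have hθ := theta_HC e S hS
  set D : ℕ := ∏ r ∈ S, r with hDdef
  set θ : Ideal RR → ℂ := fun I => psi I ^ (2 * e + 1) * ∏ q ∈ S, qch q (nI I) with hθdef
  set φ : RR → ℂ := fun m => ∏ r ∈ S, qch r (nR m) with hφdef
  have hbasic := Pool.Agent.W287.HK.h_basic
  have hcls := Pool.Agent.W571.HK.h_cls hbasic
  have hfp := Pool.Agent.W53.HK.h_fp hbasic hcls
  have hfpr := Pool.Agent.W366.HK.h_fpr hbasic hcls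
  have hlat := Pool.Agent.W585.HK.h_lat hbasic
  have hker := Pool.Agent.W692.HK.h_ker hbasic hcls hfpr
  have hcnt := Pool.Agent.W584.HK.h_cnt hbasic hcls hfpr hlat hker
  have hdec := Pool.Agent.W856.HK.h_dec hbasic
  have hgauss := Pool.Agent.W636.HK.h_gauss hbasic hfp
  have hpois := Pool.Agent.W348.HK.h_pois hbasic
  have htheta := Pool.Agent.TH936.HK.h_theta hbasic hfp hdec hgauss hpois hcnt
  have hafe := Pool.Agent.TH936.HK.h_afe hbasic hfp hcnt hgauss htheta
  have hD0 : (D : RR) ≠ 0 := hN.ne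
  have hDn : D ≠ 0 := by
    intro h
    rw [h] at hD0
    exact hD0 (by push_cast; rfl)
  have hm0 : fR * (D : RR) ≠ 0 := mul_ne_zero fR_ne hD0
  have hSys := sys_pid (R := RR) (q := fR * (D : RR)) (fin_quot hm0)
  obtain ⟨F, g1, g2, g3⟩ := Pool.Agent.TH936.CW.lim_LK hbasic hfp hcnt hdec hafe
    Pool.Agent.Y698.qr hθ hSys
  refine ⟨F, g1, g2, ?_⟩
  intro _ L Ω q hdat
  have hL := hdat.ld.lat
  have hper := hdat.per
  have hff : fR * fR = -7 := Pool.Agent.Y698.SG.fR_mul
  obtain ⟨n, hndef⟩ : ∃ n : ℕ, n = 7 * D := ⟨_, rfl⟩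
  obtain ⟨k, hk⟩ : ∃ k : ℕ, k = n + 1 := ⟨_, rfl⟩
  have hn : 0 < n := by omega
  have hk0 : 0 < k := by omega
  have hnR : (n : RR) = -fR * (fR * (D : RR)) := by
    rw [hndef]
    push_cast
    linear_combination (D : RR) * hff
  have hn0 : (n : RR) ≠ 0 := by
    rw [hnR]
    exact mul_ne_zero (neg_ne_zero.2 fR_ne) hm0
  have hkR0 : (k : RR) ≠ 0 := by
    intro h
    have h1 : nR ((k : ℕ) : RR) = nR 0 := by rw [h]
    rw [Pool.Agent.Y698.nR_nat, Pool.Agent.Y698.nR_zero] at h1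
    have h2 : (k : ℤ) = 0 := pow_eq_zero_iff (two_ne_zero) |>.1 h1
    omega
  have f1 := fin_quot hn0
  have f2 := fin_quot hkR0
  have f3 := fin_quot hm0
  have f4 := fin_quot hD0
  let _ : Fintype (RR ⧸ sp (n : RR)) := Fintype.ofFinite _
  let _ : Fintype (RR ⧸ sp (k : RR)) := Fintype.ofFinite _
  let _ : Fintype (RR ⧸ sp (fR * (D : RR))) := Fintype.ofFinite _
  let _ : Fintype (RR ⧸ sp (D : RR)) := Fintype.ofFinite _
  obtain ⟨G, k1, k2, k3⟩ := cenK hbasic hfp hcnt hdec hafe Pool.Agent.Y698.qr hL hper hSys hn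
    (by
      rw [hnR, Ideal.mem_span_singleton']
      exact ⟨-fR, rfl⟩)
    (fun b hb => by
      rw [Finset.mem_singleton.1 hb]
      exact Submodule.mem_top) hk hθ
  have hFG : F = G := uniq g1 k1 g2 k2
  rw [hFG, k3, Finset.sum_singleton]
  -- the coefficient function
  have hck : ∀ x : RR, ck e θ ⊤ x = e7 x * φ x := by
    intro x
    unfold ck
    rw [if_pos Submodule.mem_top]
    unfold Pool.Agent.W192.HK.fp
    by_cases hx : x = 0
    · subst hx
      have h0 : e7 0 = 0 := by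
        rw [e7_eq_zero]
        exact Submodule.zero_mem _
      rw [h0, zero_mul]
      simp
    · have hx' : (x : ℂ) ≠ 0 := fun h => hx (Subtype.ext h)
      have h1 : θ (sp x) / (x : ℂ) ^ (2 * e + 1) = e7 x * φ x := by
        simp only [hθdef, hφdef]
        rw [psi_sp, mul_pow, e7_odd, nI_sp']
        field_simp
      rw [h1, map_mul, e7_conj]
      congr 1
      simp only [hφdef]
      rw [map_prod]
      exact Finset.prod_congr rfl fun r _ => qch_conj _ _
  have hck' : ck e θ ⊤ = fun x => e7 x * φ x := funext hck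
  have hφper : ∀ x y : RR, x - y ∈ sp (D : RR) → φ x = φ y := by
    intro x y hxy
    simp only [hφdef]
    refine Finset.prod_congr rfl fun r hr => ?_
    refine Pool.Agent.Y698.qch_per r _ _ (nR_cong ?_)
    rw [Ideal.mem_span_singleton'] at hxy ⊢
    obtain ⟨a, ha⟩ := hxy
    obtain ⟨b, hb⟩ := Finset.dvd_prod_of_mem (fun q => q) hr
    refine ⟨a * (b : RR), ?_⟩
    have hb' : (D : RR) = (r : RR) * (b : RR) := by
      have : D = r * b := hb
      rw [this]
      push_cast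
      rfl
    rw [← ha, hb']
    ring
  have hφmul : ∀ x y : RR, φ (x * y) = φ x * φ y := by
    intro x y
    simp only [hφdef]
    rw [← Finset.prod_mul_distrib]
    refine Finset.prod_congr rfl fun r _ => ?_
    rw [nR_mul, qch_mul]
  have hnc : (((n : RR)) : ℂ) = (n : ℂ) := by push_cast; rfl
  have hkc : (((k : RR)) : ℂ) = (k : ℂ) := by push_cast; rfl
  have hnC : (n : ℂ) ≠ 0 := by exact_mod_cast hn.ne'
  have hBB : Pool.Agent.TH936.CW.BB L (1 / 4) q e Ω n k (ck e θ ⊤) =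
      2 * ((k : ℂ) - k ^ 2) * ∑ x : RR ⧸ sp (n : RR), (e7 x.out * φ x.out) *
        ek L (1 / 4) q e (Ω * x.out / (n : RR)) := by
    unfold Pool.Agent.TH936.CW.BB
    rw [Finset.mul_sum]
    refine Finset.sum_congr rfl fun x _ => ?_
    rw [hck]
    by_cases hx : x.out ∈ sp fR
    · rw [e7_eq_zero.2 hx]
      ring
    · have hz : Ω * x.out / n ∉ L.lattice := by
        rw [← hnc, div_mem_iff hL hn0]
        intro h
        apply hx
        have h0 : x.out ∈ sp (fR * (D : RR) * -fR) := by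
          have e0 : sp (n : RR) = sp (fR * (D : RR) * -fR) := by
            rw [hnR, mul_comm]
          exact e0 ▸ h
        exact sub_of_mul (sub_of_mul h0)
      have h1 : ∀ y : RR ⧸ sp (k : RR), (if y = 0 then 0 else
          Dk L (1 / 4) q e (Ω * x.out / n) (Ω * y.out / k)) =
          Dk L (1 / 4) q e (Ω * x.out / n) (Ω * y.out / k) := by
        intro y
        split_ifs with hy
        · rw [Dk_zero hper e hz]
          rw [← hkc, div_mem_iff hL hkR0, hy, ← Ideal.Quotient.eq_zero_iff_mem,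
            Ideal.Quotient.mk_out]
        · rfl
      have h2 := inner_sum hpar hdist hL hper e hk0 hz (by
        rw [hk]
        push_cast
        have e0 : ((n : ℂ) + 1) * (Ω * x.out / n) - Ω * x.out / n = Ω * x.out := by
          field_simp
          ring
        rw [e0]
        exact hL.mem_mul _)
      rw [hnc, Finset.sum_congr rfl (fun y _ => h1 y), h2]
      ring
  have hcc : ∀ x y : RR, x - y ∈ sp (fR * (D : RR)) → e7 x * φ x = e7 y * φ y := by
    intro x y hxy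
    have h1 : x - y ∈ sp (D : RR) := by
      rw [mul_comm] at hxy
      exact sub_of_mul hxy
    rw [e7_per (sub_of_mul hxy), hφper _ _ h1]
  have hout := outer_sum hpar hdist hL hper e hD0 hnR (fun x => e7 x * φ x) hcc
    (fun x hx => by
      show e7 x * φ x = 0
      rw [e7_eq_zero.2 hx, zero_mul])
  have hcrt := crt_sum hL hper e hD0 hN.cop φ hφper hφmul
  have hBw : Bw Ω (Mk L q e) (D : RR) φ = e.factorial * ∑ x : RR ⧸ sp (D : RR), φ x.out *
      ∑ y : RR ⧸ sp fR, e7 y.out * ek L (1 / 4) q e (Ω * y.out / fR + Ω * x.out / (D : RR)) := by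
    unfold Bw
    rw [finsum_eq_sum_of_fintype, Finset.mul_sum]
    refine Finset.sum_congr rfl fun x _ => ?_
    unfold Gw Mk
    rw [Finset.mul_sum, Finset.mul_sum, Finset.mul_sum]
    refine Finset.sum_congr rfl fun y _ => ?_
    ring
  have hout' : ∑ x : RR ⧸ sp (n : RR), (e7 x.out * φ x.out) *
        ek L (1 / 4) q e (Ω * x.out / (n : RR)) = _ := hout
  rw [hBB, hout', hcrt, hBw]
  have c1 : θ ⊤ ≠ 0 := by
    rw [Ne, hθ.zero]
    rintro (h | h)
    · exact top_ne_bot h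
    · apply h
      rw [← Ideal.one_eq_top]
      exact isCoprime_one_left
  have c2 : ((nm (⊤ : Ideal RR) : ℂ) ^ e)⁻¹ ≠ 0 := by
    have h1 := ((hbasic RR al Pool.Agent.Y698.qr).2.2.2.2.2.2.1 ⊤).2 rfl
    rw [h1]
    simp
  have c3 : (k : ℂ) - k ^ 2 ≠ 0 := by
    rw [hk]
    push_cast
    have e1 : ((n : ℂ) + 1) - (n + 1) ^ 2 = -(n * (n + 1)) := by ring
    rw [e1, neg_ne_zero]
    refine mul_ne_zero hnC ?_
    exact_mod_cast Nat.succ_ne_zero n
  have c4 : ((-fR : RR) : ℂ) ≠ 0 := fun h => fR_ne (neg_eq_zero.1 (Subtype.ext h))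
  have c5 : ((-fR : RR) : ℂ) ^ (e + 1) * ((starRingEnd ℂ) ((-fR : RR) : ℂ) ^ e)⁻¹ ≠ 0 := by
    refine mul_ne_zero (pow_ne_zero _ c4) (inv_ne_zero (pow_ne_zero _ ?_))
    exact (map_ne_zero _).2 c4
  have c6 : e7 (D : RR) ≠ 0 := by
    rw [Ne, e7_eq_zero]
    exact not_mem_of_cop hN.cop
  have c7 : φ fR ≠ 0 := by
    simp only [hφdef]
    rw [nR_fR]
    intro h
    have h1 := qprod_sq (S := S) (m := 7) (fun q hq => (hS q hq).pr)
      fun q hq => (hS q hq).not_seven
    rw [h] at h1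
    norm_num at h1
  have c8 : (e.factorial : ℂ) ≠ 0 := by exact_mod_cast e.factorial_ne_zero
  constructor
  · intro h
    have h1 := (mul_eq_zero.1 h).resolve_left (mul_ne_zero c1 c2)
    have h2 := (mul_eq_zero.1 h1).resolve_left (mul_ne_zero two_ne_zero c3)
    have h3 := (mul_eq_zero.1 h2).resolve_left c5
    have h4 := (mul_eq_zero.1 h3).resolve_left (mul_ne_zero c6 c7)
    rw [h4, mul_zero]
  · intro h
    have h1 := (mul_eq_zero.1 h).resolve_left c8
    rw [h1]
    ring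

end Pool.Agent.Q203.BKL
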