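import Pool.Agent.Q274.BKL.Stm2

/-!
# The L-series as a sum over pairs of integers
-/

set_option autoImplicit false
set_option linter.unusedVariables false
set_option linter.unusedSectionVars false

open Filter
open scoped Topology PeriodPair

namespace Pool.Agent.Q203.BKL

open Pool.Agent.W192.HK (sp nm)
open Pool.Agent.Y698 (RR fR al e7 nR nI Inq qch psi psi_sp e7_eq_zero e7_sq nI_sp' cX cY sp_eq
  mem_RR cXY_of)
open Pool.Agent.Y698.SG (Spl)
open Pool.Agent.Q274.BKL

/-- the generator -/
noncomputable def gen (I : Ideal RR) : RR := Submodule.IsPrincipal.generator I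

lemma sp_gen (I : Ideal RR) : sp (gen I) = I := Submodule.IsPrincipal.span_singleton_generator I

/-- each nonzero ideal has two generators -/
lemma hasSum_gen {f : Ideal RR → ℂ} (h0 : f ⊥ = 0) {a : ℂ} (h : HasSum f a) :
    HasSum (fun g : RR => f (sp g)) (2 * a) := by
  classical
  set h1 : RR → ℂ := fun g => if g = gen (sp g) then f (sp g) else 0 with hh1
  set h2 : RR → ℂ := fun g => if g = gen (sp g) then 0 else f (sp g) with hh2
  have e0 : (fun g : RR => f (sp g)) = fun g => h1 g + h2 g := by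
    funext g
    simp only [hh1, hh2]
    split_ifs <;> ring
  have i1 : Function.Injective gen := by
    intro I J hIJ
    rw [← sp_gen I, ← sp_gen J, hIJ]
  have i2 : Function.Injective (fun I => -gen I) := by
    intro I J hIJ
    exact i1 (neg_injective hIJ)
  have s1 : HasSum h1 a := by
    rw [← i1.hasSum_iff]
    · convert h using 1
      funext I
      simp only [hh1, Function.comp_apply]
      rw [sp_gen, if_pos rfl]
    · intro g hg
      simp only [hh1]
      rw [if_neg]
      intro hg'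
      exact hg ⟨_, hg'.symm⟩
  have s2 : HasSum h2 a := by
    rw [← i2.hasSum_iff]
    · convert h using 1
      funext I
      simp only [hh2, Function.comp_apply]
      have e1 : sp (-gen I) = I := by
        have : sp (-gen I) = sp (gen I) := Ideal.span_singleton_neg _
        rw [this, sp_gen]
      rw [e1]
      split_ifs with hI
      · have h3 : gen I = 0 := by
          have h4 : 2 * gen I = 0 := by linear_combination -hI
          have h5 : (2 : RR) ≠ 0 := by
            intro h5
            have := congrArg (fun t : RR => (t : ℂ)) h5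
            simp at this
          exact (mul_eq_zero.1 h4).resolve_left h5
        have h6 : I = ⊥ := by
          rw [← sp_gen I, h3]
          exact Ideal.span_singleton_eq_bot.2 rfl
        rw [h6, h0]
      · rfl
    · intro g hg
      simp only [hh2]
      by_cases hg' : g = gen (sp g)
      · rw [if_pos hg']
      · exfalso
        rcases sp_eq (sp_gen (sp g)) with h3 | h3
        · exact hg' h3.symm
        · refine hg ⟨sp g, ?_⟩
          show -gen (sp g) = g
          rw [h3, neg_neg]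
  rw [e0, two_mul]
  exact s1.add s2

/-- coordinates -/
noncomputable def coE : ℤ × ℤ ≃ RR where
  toFun g := ⟨(g.1 : ℂ) + g.2 * al, ⟨g.1, g.2, rfl⟩⟩
  invFun r := (cX r, cY r)
  left_inv g := by
    have h := cXY_of (r := (⟨(g.1 : ℂ) + g.2 * al, ⟨g.1, g.2, rfl⟩⟩ : RR)) (x := g.1) (y := g.2) rfl
    exact Prod.ext h.1 h.2
  right_inv r := Subtype.ext (Pool.Agent.Y698.co r).symm

lemma e7_odd' (x : RR) (e : ℕ) : e7 x ^ (2 * e + 1) = e7 x := by
  by_cases hx : x ∈ sp fR
  · rw [e7_eq_zero.2 hx, zero_pow (Nat.succ_ne_zero _)]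
  · rw [pow_succ, pow_mul, e7_sq hx, one_pow, one_mul]

lemma prod_qch {S : Finset ℕ} (hS : ∀ q ∈ S, q ≠ 0) (m : ℤ) :
    ∏ q ∈ S, qch q m = ((jacobiSym m (∏ q ∈ S, q) : ℤ) : ℂ) := by
  classical
  induction S using Finset.induction_on with
  | empty => simp
  | insert q S hq ih =>
    have h1 := ih fun p hp => hS p (Finset.mem_insert_of_mem hp)
    have h2 : NeZero q := ⟨hS q (Finset.mem_insert_self _ _)⟩
    have h3 : NeZero (∏ p ∈ S, p) :=
      ⟨Finset.prod_ne_zero_iff.2 fun p hp => hS p (Finset.mem_insert_of_mem hp)⟩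
    rw [Finset.prod_insert hq, Finset.prod_insert hq, jacobiSym.mul_right, h1]
    unfold qch
    push_cast
    rfl

theorem t_ELT : S_ELT := by
  classical
  intro Q P hQ hP e z a h
  have hS : ∀ q ∈ Q ∪ P, q ≠ 0 := by
    intro q hq
    rcases Finset.mem_union.1 hq with h | h
    · exact (hQ q h).pr.ne_zero
    · exact (hP q h).pr.ne_zero
  have hpsi0 : psi (⊥ : Ideal RR) = 0 := by
    have : (⊥ : Ideal RR) = sp 0 := (Ideal.span_singleton_eq_bot.2 rfl).symm
    rw [this, psi_sp]
    push_cast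
    rw [mul_zero]
  have h1 := hasSum_gen (f := fun I : Ideal RR =>
    psi I ^ (2 * e + 1) * (∏ r ∈ Q ∪ P, qch r (nI I)) * (nm I : ℂ) ^ (-z)) (by
      show psi ⊥ ^ (2 * e + 1) * _ * _ = 0
      rw [hpsi0, zero_pow (Nat.succ_ne_zero _), zero_mul, zero_mul]) h
  rw [← coE.hasSum_iff] at h1
  convert h1 using 1
  funext g
  have hg := cXY_of (r := coE g) (x := g.1) (y := g.2) rfl
  have hn : nR (coE g) = g.1 ^ 2 + g.1 * g.2 + 2 * g.2 ^ 2 := by
    unfold nR
    rw [hg.1, hg.2]
  simp only [Function.comp_apply]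
  rw [psi_sp, mul_pow, e7_odd']
  have h2 : e7 (coE g) = ((jacobiSym (g.1 + 4 * g.2) 7 : ℤ) : ℂ) := by
    unfold e7
    rw [← jacobiSym.legendreSym.to_jacobiSym]
    unfold legendreSym
    rw [Pool.Agent.Y698.r7_apply, hg.1, hg.2]
    congr 3
    push_cast
    ring
  have h3 : ∏ r ∈ Q ∪ P, qch r (nI (sp (coE g))) =
      ((jacobiSym (g.1 ^ 2 + g.1 * g.2 + 2 * g.2 ^ 2) (∏ r ∈ Q ∪ P, r) : ℤ) : ℂ) := by
    rw [prod_qch hS, nI_sp', hn]
  have h4 : ((nm (sp (coE g)) : ℝ) : ℂ) = ((g.1 ^ 2 + g.1 * g.2 + 2 * g.2 ^ 2 : ℤ) : ℂ) := by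
    rw [Pool.Agent.Y698.nm_nI, ← hn, ← nI_sp' (coE g)]
    push_cast
    rfl
  have h5 : ((coE g : RR) : ℂ) = (g.1 : ℂ) + g.2 * ((1 + Complex.I * (Real.sqrt 7 : ℂ)) / 2) := rfl
  rw [h2, h3, h4, h5]
  unfold lt
  push_cast
  ring

end Pool.Agent.Q203.BKL
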